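import Pool.Agent.Lib.lead.CXGraphRed

namespace Pool.Agent.H.MP_5661ce_lc

open Pool.Agent.Lib.CX Finset

def Free (n m : ℕ) (I : List (ℕ × ℕ)) (x A : ℕ → ℝ) : Prop :=
  ∀ g : ℕ → ℕ → ℝ, (∀ i j, (i, j) ∉ I → g i j = 0) →
    (∀ i, ∑ j ∈ range m, g i j * A j = 0 ∧ ∑ j ∈ range m, g i j = 0) →
    (∀ j, ∑ i ∈ range n, g i j * x i = 0 ∧ ∑ i ∈ range n, g i j = 0) → ∀ i j, g i j = 0

theorem li_iff {n m : ℕ} {I : List (ℕ × ℕ)} (hI : ∀ e ∈ I, e.1 < n ∧ e.2 < m) (x A : ℕ → ℝ) :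
    (LinearIndependent ℝ fun e : {e : Fin n × Fin m // (e.1.1, e.2.1) ∈ I} =>
      ((Pi.single e.1.1 (A e.1.2, 1), Pi.single e.1.2 (x e.1.1, 1)) : (Fin n → ℝ × ℝ) × (Fin m → ℝ × ℝ))) ↔ Free n m I x A := by
  have key : ∀ g : ℕ → ℕ → ℝ, (∀ i j, (i, j) ∉ I → g i j = 0) →
      ((∑ e : {e : Fin n × Fin m // (e.1.1, e.2.1) ∈ I}, g e.1.1 e.1.2 •
        ((Pi.single e.1.1 (A e.1.2, 1), Pi.single e.1.2 (x e.1.1, 1)) : (Fin n → ℝ × ℝ) × (Fin m → ℝ × ℝ))) = 0 ↔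
      (∀ i, ∑ j ∈ range m, g i j * A j = 0 ∧ ∑ j ∈ range m, g i j = 0) ∧
      ∀ j, ∑ i ∈ range n, g i j * x i = 0 ∧ ∑ i ∈ range n, g i j = 0) := fun g hg => by
    rw [← sum_subtype (univ.filter fun e : Fin n × Fin m => (e.1.1, e.2.1) ∈ I) (by simp) (fun e => g e.1 e.2 •
      ((Pi.single e.1 (A e.2, 1), Pi.single e.2 (x e.1, 1)) : (Fin n → ℝ × ℝ) × (Fin m → ℝ × ℝ))),
      sum_filter_of_ne fun e _ h => by by_contra q; simp [hg _ _ q] at h]
    simp only [Prod.ext_iff, Prod.fst_sum, Prod.snd_sum, funext_iff, Finset.sum_apply, Fintype.sum_prod_type, Prod.smul_mk,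
      Pi.smul_apply, Pi.single_apply, Prod.fst_zero, Prod.snd_zero, Pi.zero_apply, smul_ite,
      smul_eq_mul, smul_zero, mul_one, sum_ite_eq, mem_univ, if_true, sum_ite_irrel, sum_const_zero,
      sum_range]
    refine and_congr ⟨fun h i => ?_, fun h i => h i⟩ ⟨fun h j => ?_, fun h j => h j⟩
    · by_cases q : i < n
      · exact h ⟨i, q⟩
      · simp [fun j => hg i j fun r => q (hI _ r).1]
    · by_cases q : j < m
      · exact h ⟨j, q⟩
      · simp [fun i => hg i j fun r => q (hI _ r).2]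
  rw [Fintype.linearIndependent_iff]
  refine ⟨fun h g h0 h1 h2 i j => ?_, fun h g hg e => ?_⟩
  · by_contra q
    have r : (i, j) ∈ I := by by_contra r; exact q (h0 i j r)
    exact q (h (fun e => g e.1.1 e.1.2) ((key g h0).2 ⟨h1, h2⟩) ⟨(⟨i, (hI _ r).1⟩, ⟨j, (hI _ r).2⟩), r⟩)
  · let G : ℕ → ℕ → ℝ := fun i j => if r : (i, j) ∈ I then g ⟨(⟨i, (hI _ r).1⟩, ⟨j, (hI _ r).2⟩), r⟩ else 0
    have e1 : ∀ e : {e : Fin n × Fin m // (e.1.1, e.2.1) ∈ I}, G e.1.1 e.1.2 = g e := fun e => dif_pos e.2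
    have h0 : ∀ i j, (i, j) ∉ I → G i j = 0 := fun i j r => dif_neg r
    have := (key G h0).1 (by simpa only [e1] using hg)
    rw [← e1]
    exact h G h0 this.1 this.2 _ _

theorem two {N : ℕ} {h c : ℕ → ℝ} {p q : ℕ} (hp : p < N) (hq : q < N) (hc : c p ≠ c q) (h0 : ∀ k, k = p ∨ k = q ∨ h k = 0)
    (h1 : ∑ k ∈ range N, h k * c k = 0 ∧ ∑ k ∈ range N, h k = 0) : h p = 0 ∧ h q = 0 := by
  have ne : p ≠ q := fun e => hc (e ▸ rfl)
  have s : ∀ f : ℕ → ℝ, ∑ k ∈ range N, h k * f k = h p * f p + h q * f q := fun f =>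
    sum_eq_add_of_mem p q (mem_range.2 hp) (mem_range.2 hq) ne fun k _ hk => by
      rcases h0 k with e | e | e <;> simp_all
  have a := s c
  have b := s fun _ => 1
  simp only [mul_one, h1.1, h1.2] at a b
  have : h p * (c p - c q) = 0 := by linear_combination -a + c q * b
  have : h p = 0 := (mul_eq_zero.1 this).resolve_right (sub_ne_zero.2 hc)
  exact ⟨this, by linarith⟩

theorem one {N : ℕ} {h : ℕ → ℝ} {p : ℕ} (hp : p < N) (h0 : ∀ k, k = p ∨ h k = 0) (h1 : ∑ k ∈ range N, h k = 0) : h p = 0 := by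
  rwa [sum_eq_single_of_mem p (mem_range.2 hp) fun k _ hk => (h0 k).resolve_left hk] at h1

theorem Free.swap {n m I x A} (h : Free n m I x A) : Free m n (I.map Prod.swap) A x := fun g h0 h1 h2 i j =>
  h (fun i j => g j i) (fun i j r => h0 j i fun q => r (by simpa using q)) h2 h1 j i

theorem Free.k23 {n m I x A} (h : Free n m I x A) {p q a b c : ℕ} (hp : p < n) (hq : q < n) (ha : a < m) (hb : b < m) (hc : c < m)
    (pq : p ≠ q) (ab : a ≠ b) (ac : a ≠ c) (bc : b ≠ c) (hI : ∀ i ∈ [p, q], ∀ j ∈ [a, b, c], (i, j) ∈ I) : x p ≠ x q := fun e => by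
  obtain ⟨u, v, w, h1, h2, h3⟩ : ∃ u v w : ℝ, u + v + w = 0 ∧ u * A a + v * A b + w * A c = 0 ∧ (u ≠ 0 ∨ w ≠ 0) := by
    by_cases r : A a = A b
    · exact ⟨1, -1, 0, by ring, by rw [r]; ring, by simp⟩
    · exact ⟨A b - A c, A c - A a, A a - A b, by ring, by ring, Or.inr (sub_ne_zero.2 r)⟩
  have := h (fun i j => ((if i = p then 1 else 0) - if i = q then 1 else 0) *
    ((if j = a then u else 0) + (if j = b then v else 0) + if j = c then w else 0)) (fun i j r => ?_) (fun i => ?_) fun j => ?_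
  · have s := this p a
    have t := this p c
    simp [pq, ab, ac, ac.symm, bc.symm] at s t
    tauto
  · by_contra! z
    obtain ⟨z1, z2⟩ := mul_ne_zero_iff.1 z
    refine r (hI i ?_ j ?_) <;> by_contra! y <;> simp_all
  · simp only [mul_assoc, ← mul_sum, add_mul, ite_mul, zero_mul, sum_add_distrib, sum_ite_eq', mem_range, ha, hb, hc, if_true,
      h1, h2, mul_zero, and_self]
  · simp only [sub_mul, ite_mul, zero_mul, one_mul, sum_sub_distrib, sum_ite_eq', mem_range,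
      hp, hq, if_true, e, sub_self, and_self]

end Pool.Agent.H.MP_5661ce_lc
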