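import Pool.Agent.H.MP_5661ce_lc.A

namespace Pool.Agent.H.MP_5661ce_lc

open Pool.Agent.Lib.CX Finset

def qq (g : ℕ) : ℕ := if g % 2 = 0 then 3 * g + 7 else 2

def gad (g : ℕ) : List (ℕ × ℕ) :=
  [(3 * g + 4, 0), (3 * g + 4, 5 * g + 3), (g % 2, 5 * g + 3), (3 * g + 4, 5 * g + 4), (qq g, 5 * g + 4),
    (3 * g + 5, 5 * g + 3), (3 * g + 5, 5 * g + 4), (3 * g + 6, 5 * g + 3), (3 * g + 6, 5 * g + 4)]

def edg (u v t : ℕ) : List (ℕ × ℕ) :=
  [(6 * u + 4, 5 * t + 5), (6 * u + 4, 5 * t + 6), (6 * u + 4, 5 * t + 7), (6 * v + 4, 5 * t + 5), (6 * v + 4, 5 * t + 6),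
    (6 * v + 4, 5 * t + 7)]

def inc (a : Gr) : List (ℕ × ℕ) :=
  [(0, 0), (1, 0), (2, 0), (0, 1), (3, 1), (1, 2), (3, 2)] ++ (List.range (2 * a.n)).flatMap gad ++
    ((List.range (a.n * a.n)).filter fun t => a.adjB (t / a.n) (t % a.n)).flatMap fun t => edg (t / a.n) (t % a.n) t

def red (a : Gr) : List Unit × List Unit × List (ℕ × ℕ) :=
  (List.replicate (6 * a.n + 4) (), List.replicate (5 * (a.n * a.n) + 10 * a.n + 3) (), inc a)

theorem mem_inc {a : Gr} {e} : e ∈ inc a ↔ e ∈ [(0, 0), (1, 0), (2, 0), (0, 1), (3, 1), (1, 2), (3, 2)] ∨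
    (∃ g < 2 * a.n, e ∈ gad g) ∨ ∃ t < a.n * a.n, a.adjB (t / a.n) (t % a.n) ∧ e ∈ edg (t / a.n) (t % a.n) t := by
  simp only [inc, List.mem_append, List.mem_flatMap, List.mem_filter, List.mem_range, or_assoc, and_assoc]

theorem adj_lt {a : Gr} {u v} (h : a.adjB u v) : u < a.n ∧ v < a.n ∧ u ≠ v := by
  simp only [Gr.adjB, decide_eq_true_eq] at h
  exact ⟨h.1, h.2.1, h.2.2.1⟩

theorem cases_inc {a : Gr} {i j} (h : (i, j) ∈ inc a) : (j = 0 ∧ i < 3 ∨ j = 1 ∧ (i = 0 ∨ i = 3) ∨ j = 2 ∧ (i = 1 ∨ i = 3)) ∨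
    (∃ g < 2 * a.n, i = 3 * g + 4 ∧ j = 0 ∨ (j = 5 * g + 3 ∨ j = 5 * g + 4) ∧ (i = 3 * g + 4 ∨ i = 3 * g + 5 ∨ i = 3 * g + 6) ∨
      j = 5 * g + 3 ∧ i = g % 2 ∨ j = 5 * g + 4 ∧ i = qq g) ∨
    ∃ t < a.n * a.n, a.adjB (t / a.n) (t % a.n) ∧ (i = 6 * (t / a.n) + 4 ∨ i = 6 * (t % a.n) + 4) ∧
      (j = 5 * t + 5 ∨ j = 5 * t + 6 ∨ j = 5 * t + 7) := by
  rcases mem_inc.1 h with h | ⟨g, h1, h⟩ | ⟨t, h1, h2, h⟩
  · left
    simp at h
    omega
  · refine Or.inr (Or.inl ⟨g, h1, ?_⟩)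
    simp only [gad, List.mem_cons, Prod.mk.injEq, List.not_mem_nil, or_false] at h
    omega
  · refine Or.inr (Or.inr ⟨t, h1, h2, ?_⟩)
    simp only [edg, List.mem_cons, Prod.mk.injEq, List.not_mem_nil, or_false] at h
    omega

theorem bnd {a : Gr} : ∀ e ∈ inc a, e.1 < 6 * a.n + 4 ∧ e.2 < 5 * (a.n * a.n) + 10 * a.n + 3 := fun (i, j) h => by
  rcases cases_inc h with h | ⟨g, h1, h⟩ | ⟨t, h1, h2, h⟩
  · omega
  · unfold qq at h
    split_ifs at h <;> omega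
  · have := adj_lt h2
    omega

theorem ch {a : Gr} {N M : ℕ} {x y A C : ℕ → ℝ} (h : ∀ i j, (i, j) ∈ inc a → A j * x i + y i + C j = 0)
    (F : Free N M (inc a) x A) (g : ℕ) (hg : g < 2 * a.n) (hN : 3 * g + 6 < N) (hM : 5 * g + 4 < M) :
    x (3 * g + 4) = x (g % 2) ∨ x (3 * g + 4) = x (qq g) := by
  have m : ∀ e ∈ gad g, e ∈ inc a := fun e he => mem_inc.2 (Or.inr (Or.inl ⟨g, hg, he⟩))
  have ne : A (5 * g + 3) ≠ A (5 * g + 4) := by
    refine F.swap.k23 (a := 3 * g + 4) (b := 3 * g + 5) (c := 3 * g + 6) (by omega) hM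
      (by omega) (by omega) hN (by omega) (by omega) (by omega) (by omega) fun i hi j hj =>
        List.mem_map.2 ⟨(j, i), m _ ?_, rfl⟩
    simp only [gad, List.mem_cons, Prod.mk.injEq, List.not_mem_nil, or_false] at hi hj ⊢
    omega
  have e0 := h (3 * g + 4) 0 (m _ (by simp [gad]))
  have e1 := h (3 * g + 4) (5 * g + 3) (m _ (by simp [gad]))
  have e2 := h (g % 2) (5 * g + 3) (m _ (by simp [gad]))
  have e3 := h (3 * g + 4) (5 * g + 4) (m _ (by simp [gad]))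
  have e4 := h (qq g) (5 * g + 4) (m _ (by simp [gad]))
  have e5 := h (g % 2) 0 (mem_inc.2 (Or.inl (by simp; omega)))
  have e6 := h (qq g) 0 (mem_inc.2 (by
    unfold qq
    split_ifs
    · exact Or.inr (Or.inl ⟨g + 1, by omega, by simp [gad]; omega⟩)
    · simp))
  by_contra! q
  have a1 : A (5 * g + 3) = A 0 := mul_right_cancel₀ (sub_ne_zero.2 q.1) (by linarith)
  have a2 : A (5 * g + 4) = A 0 := mul_right_cancel₀ (sub_ne_zero.2 q.2) (by linarith)
  exact ne (a1.trans a2.symm)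

theorem sound {a : Gr} {x y A C : ℕ → ℝ} (h : ∀ i j, (i, j) ∈ inc a → A j * x i + y i + C j = 0)
    (F : Free (6 * a.n + 4) (5 * (a.n * a.n) + 10 * a.n + 3) (inc a) x A) : a.G.Colorable 3 := by
  have c3 : ∀ u < a.n, x (6 * u + 4) = x 0 ∨ x (6 * u + 4) = x 1 ∨ x (6 * u + 4) = x 2 := fun u hu => by
    have h1 := ch h F (2 * u) (by omega) (by omega) (by omega)
    have h2 := ch h F (2 * u + 1) (by omega) (by omega) (by omega)
    simp only [qq, Nat.mul_mod_right, Nat.mul_add_mod, if_true, show ¬ (1 % 2 = 0) by omega, if_false,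
      show 3 * (2 * u) + 4 = 6 * u + 4 by omega, show 3 * (2 * u + 1) + 4 = 3 * (2 * u) + 7 by omega] at h1 h2
    grind
  refine ⟨SimpleGraph.Coloring.mk (fun u => if x (6 * u + 4) = x 0 then 0 else if x (6 * u + 4) = x 1 then 1 else 2) ?_⟩
  intro u v uv
  have n0 : 0 < a.n := u.pos
  have hu := u.2
  have hv := v.2
  obtain ⟨t, d1, d2, lt⟩ : ∃ t, t / a.n = u ∧ t % a.n = v ∧ t < a.n * a.n :=
    ⟨u * a.n + v, by rw [mul_comm, Nat.mul_add_div n0, Nat.div_eq_of_lt v.2, add_zero], Nat.mul_add_mod_of_lt v.2, by nlinarith⟩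
  have ne : u.1 ≠ v.1 := Fin.val_ne_of_ne uv.ne
  have : x (6 * u + 4) ≠ x (6 * v + 4) := by
    refine F.k23 (a := 5 * t + 5) (b := 5 * t + 6) (c := 5 * t + 7) (by omega) (by omega) (by omega) (by omega) (by omega)
      (by omega) (by omega) (by omega) (by omega) fun i hi j hj => mem_inc.2 (Or.inr (Or.inr ⟨t, lt, ?_, ?_⟩))
    · rw [d1, d2, Gr.adjB_iff]
      exact uv
    · simp only [edg, d1, d2, List.mem_cons, Prod.mk.injEq, List.not_mem_nil, or_false] at hi hj ⊢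
      omega
  have := c3 u u.2
  have := c3 v v.2
  split_ifs <;> grind

theorem free {a : Gr} {x A : ℕ → ℝ} (a12 : A 1 ≠ A 2)
    (hE : ∀ u v, a.adjB u v → x (6 * u + 4) ≠ x (6 * v + 4))
    (hg : ∀ g < 2 * a.n, A (5 * g + 3) ≠ A (5 * g + 4) ∧ (A 0 ≠ A (5 * g + 3) ∧ x (3 * g + 4) ≠ x (qq g) ∨
      A 0 ≠ A (5 * g + 4) ∧ x (3 * g + 4) ≠ x (g % 2))) :
    Free (6 * a.n + 4) (5 * (a.n * a.n) + 10 * a.n + 3) (inc a) x A := fun l h0 hp hl => by
  have z : ∀ i j (P : Prop), ((i, j) ∈ inc a → P) → P ∨ l i j = 0 := fun i j P h => by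
    by_cases q : (i, j) ∈ inc a
    exacts [Or.inl (h q), Or.inr (h0 i j q)]
  have qv : ∀ g, g % 2 = 0 ∧ qq g = 3 * g + 7 ∨ g % 2 = 1 ∧ qq g = 2 := fun g => by
    unfold qq
    split_ifs <;> omega
  have s1 : ∀ i j, 5 ≤ j → j % 5 < 3 → l i j = 0 := fun i j h1 h2 => by
    refine (z i j _ fun h => ?_).elim id id
    rcases cases_inc h with h | ⟨g, _, h⟩ | ⟨t, h3, h4, h5, h6⟩
    · omega
    · omega
    have := adj_lt h4
    have := two (h := fun i => l i j) (N := 6 * a.n + 4) (c := x) (by omega) (by omega) (hE _ _ h4) (fun k => ?_) (hl j)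
    · rcases h5 with rfl | rfl
      exacts [this.1, this.2]
    rw [← or_assoc]
    refine z k j _ fun h => ?_
    rcases cases_inc h with h | ⟨g, _, h⟩ | ⟨s, _, _, h7, h8⟩
    · omega
    · omega
    · rwa [show s = t by omega] at h7
  have s2 : ∀ g < 2 * a.n, ∀ i, (i = 3 * g + 5 ∨ i = 3 * g + 6) → l i (5 * g + 3) = 0 ∧ l i (5 * g + 4) = 0 := fun g h1 i hi => by
    refine two (h := l i) (N := 5 * (a.n * a.n) + 10 * a.n + 3) (c := A) (by omega) (by omega) (hg g h1).1 (fun k => ?_) (hp i)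
    rw [← or_assoc]
    refine z i k _ fun h => ?_
    rcases cases_inc h with h | ⟨s, _, h⟩ | ⟨s, _, _, h7, h8⟩
    · omega
    · have := qv s
      omega
    · omega
  have s3 : ∀ g < 2 * a.n, (g % 2 = 1 → l (3 * g + 4) (5 * g - 1) = 0) →
      ∀ i, l i (5 * g + 3) = 0 ∧ l i (5 * g + 4) = 0 ∧ l (3 * g + 4) 0 = 0 := fun g h1 h2 => by
    have q := qv g
    have n3 : ∀ k, k = 3 * g + 4 ∨ k = g % 2 ∨ l k (5 * g + 3) = 0 := fun k => by
      rcases z k (5 * g + 3) (k = 3 * g + 4 ∨ k = g % 2 ∨ (k = 3 * g + 5 ∨ k = 3 * g + 6)) fun h => (by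
        rcases cases_inc h with h | ⟨s, _, h⟩ | ⟨s, _, _, h7, h8⟩ <;> omega) with (h | h | h) | h
      exacts [.inl h, .inr (.inl h), .inr (.inr (s2 g h1 k h).1), .inr (.inr h)]
    have n4 : ∀ k, k = 3 * g + 4 ∨ k = qq g ∨ l k (5 * g + 4) = 0 := fun k => by
      rcases z k (5 * g + 4) (k = 3 * g + 4 ∨ k = qq g ∨ (k = 3 * g + 5 ∨ k = 3 * g + 6)) fun h => (by
        rcases cases_inc h with h | ⟨s, _, h⟩ | ⟨s, _, _, h7, h8⟩
        · omega
        · have : s = g := by omega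
          subst this
          omega
        · omega) with (h | h | h) | h
      exacts [.inl h, .inr (.inl h), .inr (.inr (s2 g h1 k h).2), .inr (.inr h)]
    have nv : ∀ k, k = 0 ∨ k = 5 * g + 3 ∨ k = 5 * g + 4 ∨ l (3 * g + 4) k = 0 := fun k => by
      rcases z (3 * g + 4) k (k = 0 ∨ k = 5 * g + 3 ∨ k = 5 * g + 4 ∨ (g % 2 = 1 ∧ k = 5 * g - 1) ∨ (5 ≤ k ∧ k % 5 < 3)) fun h => (by
        rcases cases_inc h with h | ⟨s, _, h⟩ | ⟨s, _, _, h7, h8⟩
        · omega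
        · have := qv s
          omega
        · omega) with (h | h | h | h | h) | h
      exacts [.inl h, .inr (.inl h), .inr (.inr (.inl h)), .inr (.inr (.inr (h.2 ▸ h2 h.1))), .inr (.inr (.inr (s1 _ _ h.1 h.2))),
        .inr (.inr (.inr h))]
    rcases (hg g h1).2 with ⟨h3, h4⟩ | ⟨h3, h4⟩
    · have t1 := two (h := fun i => l i (5 * g + 4)) (N := 6 * a.n + 4) (c := x) (by omega) (by omega) h4 n4 (hl _)
      have t2 := two (h := l (3 * g + 4)) (N := 5 * (a.n * a.n) + 10 * a.n + 3) (c := A) (by omega) (by omega) h3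
        (fun k => by have := nv k; grind) (hp _)
      have t3 := one (h := fun i => l i (5 * g + 3)) (N := 6 * a.n + 4) (p := g % 2) (by omega)
        (fun k => by have := n3 k; grind) (hl _).2
      intro i
      have := n3 i
      have := n4 i
      grind
    · have t1 := two (h := fun i => l i (5 * g + 3)) (N := 6 * a.n + 4) (c := x) (by omega) (by omega) h4 n3 (hl _)
      have t2 := two (h := l (3 * g + 4)) (N := 5 * (a.n * a.n) + 10 * a.n + 3) (c := A) (by omega) (by omega) h3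
        (fun k => by have := nv k; grind) (hp _)
      have t3 := one (h := fun i => l i (5 * g + 4)) (N := 6 * a.n + 4) (p := qq g) (by omega)
        (fun k => by have := n4 k; grind) (hl _).2
      intro i
      have := n3 i
      have := n4 i
      grind
  have s4 : ∀ g < 2 * a.n, ∀ i, l i (5 * g + 3) = 0 ∧ l i (5 * g + 4) = 0 ∧ l (3 * g + 4) 0 = 0 := fun g h1 =>
    s3 g h1 fun h2 => by
      have := (s3 (g - 1) (by omega) (by omega) (3 * g + 4)).2.1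
      rwa [show 5 * (g - 1) + 4 = 5 * g - 1 by omega] at this
  have s5 : ∀ i j, (j = 0 ∧ i < 3 ∨ j = 1 ∧ (i = 0 ∨ i = 3) ∨ j = 2 ∧ (i = 1 ∨ i = 3)) ∨ l i j = 0 := fun i j => by
    by_cases h : (i, j) ∈ inc a
    · rcases cases_inc h with h | ⟨s, h1, h⟩ | ⟨s, _, _, h7, h8⟩
      · exact .inl h
      · have := s4 s h1 i
        grind
      · exact .inr (s1 i j (by omega) (by omega))
    · exact .inr (h0 i j h)
  have t1 := two (h := l 3) (N := 5 * (a.n * a.n) + 10 * a.n + 3) (c := A) (by omega) (by omega) a12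
    (fun k => by have := s5 3 k; grind) (hp _)
  have t2 := one (h := fun i => l i 1) (N := 6 * a.n + 4) (p := 0) (by omega) (fun k => by have := s5 k 1; grind) (hl _).2
  have t3 := one (h := fun i => l i 2) (N := 6 * a.n + 4) (p := 1) (by omega) (fun k => by have := s5 k 2; grind) (hl _).2
  have t4 : ∀ i < 3, l i 0 = 0 := fun i hi => one (h := l i) (N := 5 * (a.n * a.n) + 10 * a.n + 3) (p := 0) (by omega)
    (fun k => by have := s5 i k; grind) (hp _).2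
  intro i j
  have := s5 i j
  grind

end Pool.Agent.H.MP_5661ce_lc
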